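import Mathlib

/-! Window pairs whose spectral magnitudes determine a polynomial: definitions. -/

set_option autoImplicit false

namespace Pool.Agent.J4H15.Win

open Complex ComplexConjugate

/-- The spectral magnitude `|p_b (e^(i ω))|` of the sequence `b = (b 0, ..., b n)`. -/
noncomputable def mag {n : ℕ} (b : Fin (n + 1) → ℂ) (ω : ℝ) : ℝ :=
  ‖∑ k, b k * exp (ω * I) ^ (k : ℕ)‖

/-- The pair of windows `(w₁, w₂)` is magnitude-determining for degree `n`. -/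
def Determining (n : ℕ) (w₁ w₂ : Fin (n + 1) → ℂ) : Prop :=
  ∀ a a' : Fin (n + 1) → ℂ, a (Fin.last n) ≠ 0 → a' (Fin.last n) ≠ 0 →
    (∀ ω, mag (a * w₁) ω = mag (a' * w₁) ω) → (∀ ω, mag (a * w₂) ω = mag (a' * w₂) ω) →
      ∃ c : ℂ, ‖c‖ = 1 ∧ a' = c • a

/-- The condition: (1) for `s < n` the numbers `w₁ n * w₁ s`, `w₂ n * w₂ s` are not both zero;
(2) for `s < j < n` and `k = s + n - j` the determinant of the rows
`(w₁ j * conj (w₁ s), w₁ n * conj (w₁ k))` and `(w₂ j * conj (w₂ s), w₂ n * conj (w₂ k))` is not zero;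
(3) `|w₁ s * w₂ n| ≠ |w₂ s * w₁ n|` for `s < n`. -/
structure Cond (n : ℕ) (w₁ w₂ : Fin (n + 1) → ℂ) : Prop where
  one : ∀ s, s < Fin.last n → w₁ (Fin.last n) * w₁ s ≠ 0 ∨ w₂ (Fin.last n) * w₂ s ≠ 0
  two : ∀ s j k : Fin (n + 1), s < j → j < Fin.last n → (j : ℕ) + k = s + n →
    w₁ j * conj (w₁ s) * (w₂ (Fin.last n) * conj (w₂ k)) ≠
      w₂ j * conj (w₂ s) * (w₁ (Fin.last n) * conj (w₁ k))
  three : ∀ s, s < Fin.last n → ‖w₁ s * w₂ (Fin.last n)‖ ≠ ‖w₂ s * w₁ (Fin.last n)‖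

end Pool.Agent.J4H15.Win
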