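import Mathlib
import Pool.Agent.J4H15.Win.Defs

/-! Window pairs: the condition is necessary. -/

set_option autoImplicit false

namespace Pool.Agent.J4H15.Win

open Complex ComplexConjugate

lemma expand4 (b0 b1 b2 b3 Z W : ℂ) (hZ : Z * conj Z = 1) (hW : W * conj W = 1) :
    (b0 + b1 * Z + b2 * W + b3 * (Z * W)) * conj (b0 + b1 * Z + b2 * W + b3 * (Z * W)) =
      (b0 * conj b0 + b1 * conj b1 + b2 * conj b2 + b3 * conj b3) +
      Z * (b1 * conj b0 + b3 * conj b2) + conj Z * conj (b1 * conj b0 + b3 * conj b2) +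
      W * (b2 * conj b0 + b3 * conj b1) + conj W * conj (b2 * conj b0 + b3 * conj b1) +
      Z * W * (b3 * conj b0) + conj Z * conj W * conj (b3 * conj b0) +
      W * conj Z * (b2 * conj b1) + conj W * Z * conj (b2 * conj b1) := by
  simp only [map_add, map_mul, Complex.conj_conj]
  linear_combination (b1 * conj b1 + b3 * conj b3 * (W * conj W) + b1 * conj b3 * conj W +
    b3 * conj b1 * W) * hZ + (b3 * conj b3 + b2 * conj b2 + b2 * conj b3 * conj Z +
    b3 * conj b2 * Z) * hW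

lemma norm_eq_of_mul_conj {x y : ℂ} (h : x * conj x = y * conj y) : ‖x‖ = ‖y‖ := by
  rw [Complex.mul_conj, Complex.mul_conj, Complex.normSq_eq_norm_sq,
    Complex.normSq_eq_norm_sq] at h
  have : ‖x‖ ^ 2 = ‖y‖ ^ 2 := by exact_mod_cast h
  exact (pow_left_inj₀ (norm_nonneg _) (norm_nonneg _) two_ne_zero).1 this

lemma four {b0 b1 b2 b3 c0 c1 c2 c3 Z W : ℂ} (hZ : Z * conj Z = 1) (hW : W * conj W = 1)
    (h0 : b0 * conj b0 + b1 * conj b1 + b2 * conj b2 + b3 * conj b3 =
      c0 * conj c0 + c1 * conj c1 + c2 * conj c2 + c3 * conj c3)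
    (h1 : b1 * conj b0 + b3 * conj b2 = c1 * conj c0 + c3 * conj c2)
    (h2 : b2 * conj b0 + b3 * conj b1 = c2 * conj c0 + c3 * conj c1)
    (h3 : b3 * conj b0 = c3 * conj c0) (h4 : b2 * conj b1 = c2 * conj c1) :
    ‖b0 + b1 * Z + b2 * W + b3 * (Z * W)‖ = ‖c0 + c1 * Z + c2 * W + c3 * (Z * W)‖ := by
  apply norm_eq_of_mul_conj
  rw [expand4 _ _ _ _ _ _ hZ hW, expand4 _ _ _ _ _ _ hZ hW, h0, h1, h2, h3, h4]

lemma expand3 (b0 b1 b3 Z : ℂ) (hZ : Z * conj Z = 1) :
    (b0 + b1 * Z + b3 * (Z * Z)) * conj (b0 + b1 * Z + b3 * (Z * Z)) =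
      (b0 * conj b0 + b1 * conj b1 + b3 * conj b3) +
      Z * (b1 * conj b0 + b3 * conj b1) + conj Z * conj (b1 * conj b0 + b3 * conj b1) +
      Z * Z * (b3 * conj b0) + conj Z * conj Z * conj (b3 * conj b0) := by
  simp only [map_add, map_mul, Complex.conj_conj]
  linear_combination (b1 * conj b1 + b3 * conj b3 * (Z * conj Z + 1) + b1 * conj b3 * conj Z +
    b3 * conj b1 * Z) * hZ

lemma three {b0 b1 b3 c0 c1 c3 Z : ℂ} (hZ : Z * conj Z = 1)
    (h0 : b0 * conj b0 + b1 * conj b1 + b3 * conj b3 =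
      c0 * conj c0 + c1 * conj c1 + c3 * conj c3)
    (h1 : b1 * conj b0 + b3 * conj b1 = c1 * conj c0 + c3 * conj c1)
    (h3 : b3 * conj b0 = c3 * conj c0) :
    ‖b0 + b1 * Z + b3 * (Z * Z)‖ = ‖c0 + c1 * Z + c3 * (Z * Z)‖ := by
  apply norm_eq_of_mul_conj
  rw [expand3 _ _ _ _ hZ, expand3 _ _ _ _ hZ, h0, h1, h3]

lemma circ' (ω : ℝ) : exp (ω * I) * conj (exp (ω * I)) = 1 := by
  rw [Complex.mul_conj, Complex.normSq_eq_norm_sq, Complex.norm_exp_ofReal_mul_I]
  simp

lemma circ_pow (ω : ℝ) (m : ℕ) : exp (ω * I) ^ m * conj (exp (ω * I) ^ m) = 1 := by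
  rw [map_pow, ← mul_pow, circ', one_pow]

lemma circ_norm (ω : ℝ) (m : ℕ) : ‖exp (ω * I) ^ m‖ = 1 := by
  rw [norm_pow, Complex.norm_exp_ofReal_mul_I, one_pow]

variable {n : ℕ}

/-- the sequence with value `x` at `s` and zero elsewhere -/
def pt (s : Fin (n + 1)) (x : ℂ) : Fin (n + 1) → ℂ := fun i => if i = s then x else 0

@[simp] lemma pt_self (s : Fin (n + 1)) (x : ℂ) : pt s x s = x := by simp [pt]

lemma pt_ne {s t : Fin (n + 1)} (h : t ≠ s) (x : ℂ) : pt s x t = 0 := by simp [pt, h]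

lemma sum_pt (s : Fin (n + 1)) (x : ℂ) (w : Fin (n + 1) → ℂ) (z : ℂ) :
    ∑ k, pt s x k * w k * z ^ (k : ℕ) = x * w s * z ^ (s : ℕ) := by
  rw [Finset.sum_eq_single s]
  · simp
  · intro b _ hb
    simp [pt_ne hb]
  · intro h
    exact absurd (Finset.mem_univ s) h

lemma mag4 (s j k l : Fin (n + 1)) (hjk : (j : ℕ) + k = s + l) (hsj : s ≤ j) (hsk : s ≤ k)
    (x0 x1 x2 x3 : ℂ)
    (w : Fin (n + 1) → ℂ) (ω : ℝ) :
    mag ((pt s x0 + pt j x1 + pt k x2 + pt l x3) * w) ω =
      ‖x0 * w s + x1 * w j * exp (ω * I) ^ ((j : ℕ) - s) +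
        x2 * w k * exp (ω * I) ^ ((k : ℕ) - s) +
        x3 * w l * (exp (ω * I) ^ ((j : ℕ) - s) * exp (ω * I) ^ ((k : ℕ) - s))‖ := by
  have h : ∑ i, ((pt s x0 + pt j x1 + pt k x2 + pt l x3) * w) i * exp (ω * I) ^ (i : ℕ) =
      (x0 * w s + x1 * w j * exp (ω * I) ^ ((j : ℕ) - s) +
        x2 * w k * exp (ω * I) ^ ((k : ℕ) - s) +
        x3 * w l * (exp (ω * I) ^ ((j : ℕ) - s) * exp (ω * I) ^ ((k : ℕ) - s))) *
        exp (ω * I) ^ (s : ℕ) := by
    have e1 : exp (ω * I) ^ (j : ℕ) = exp (ω * I) ^ ((j : ℕ) - s) * exp (ω * I) ^ (s : ℕ) := by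
      rw [← pow_add]; congr 1; rw [Fin.le_def] at hsj; omega
    have e2 : exp (ω * I) ^ (k : ℕ) = exp (ω * I) ^ ((k : ℕ) - s) * exp (ω * I) ^ (s : ℕ) := by
      rw [← pow_add]; congr 1; rw [Fin.le_def] at hsk; omega
    have e3 : exp (ω * I) ^ (l : ℕ) = exp (ω * I) ^ ((j : ℕ) - s) *
        exp (ω * I) ^ ((k : ℕ) - s) * exp (ω * I) ^ (s : ℕ) := by
      rw [← pow_add, ← pow_add]; congr 1; rw [Fin.le_def] at hsk hsj; omega
    simp only [Pi.mul_apply, Pi.add_apply, add_mul, Finset.sum_add_distrib, sum_pt]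
    rw [e1, e2, e3]
    ring
  unfold mag
  rw [h, norm_mul, circ_norm, mul_one]

lemma mag3 (s j l : Fin (n + 1)) (hjk : (j : ℕ) + j = s + l) (hsj : s ≤ j)
    (x0 x1 x3 : ℂ) (w : Fin (n + 1) → ℂ) (ω : ℝ) :
    mag ((pt s x0 + pt j x1 + pt l x3) * w) ω =
      ‖x0 * w s + x1 * w j * exp (ω * I) ^ ((j : ℕ) - s) +
        x3 * w l * (exp (ω * I) ^ ((j : ℕ) - s) * exp (ω * I) ^ ((j : ℕ) - s))‖ := by
  have h := mag4 s j j l hjk hsj hsj x0 x1 0 x3 w ω
  have h0 : pt j (0 : ℂ) = 0 := by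
    funext i; simp [pt]
  simpa [h0] using h

lemma mag2 (s l : Fin (n + 1)) (hsl : s ≤ l) (x0 x3 : ℂ) (w : Fin (n + 1) → ℂ) (ω : ℝ) :
    mag ((pt s x0 + pt l x3) * w) ω =
      ‖x0 * w s + x3 * w l * exp (ω * I) ^ ((l : ℕ) - s)‖ := by
  have h := mag4 s l s l (add_comm _ _) hsl le_rfl x0 0 0 x3 w ω
  have h0 : ∀ t : Fin (n + 1), pt t (0 : ℂ) = 0 := by
    intro t; funext i; simp [pt]
  simpa [h0] using h

/-- (1) is necessary -/
lemma nec_one {u v : Fin (n + 1) → ℂ} (h : Determining n u v) (s : Fin (n + 1))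
    (hs : s < Fin.last n) : u (Fin.last n) * u s ≠ 0 ∨ v (Fin.last n) * v s ≠ 0 := by
  by_contra hcon
  push Not at hcon
  have hne : s ≠ Fin.last n := hs.ne
  have key : ∀ w : Fin (n + 1) → ℂ, w (Fin.last n) * w s = 0 → ∀ ω,
      mag ((pt s 1 + pt (Fin.last n) 1) * w) ω = mag ((pt s (-1) + pt (Fin.last n) 1) * w) ω := by
    intro w hw ω
    rw [mag2 _ _ hs.le, mag2 _ _ hs.le]
    rcases mul_eq_zero.1 hw with h | h
    · simp [h]
    · simp [h]
  obtain ⟨c, hc, hac⟩ := h (pt s 1 + pt (Fin.last n) 1) (pt s (-1) + pt (Fin.last n) 1)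
    (by simp [pt_ne hne.symm]) (by simp [pt_ne hne.symm]) (key u hcon.1) (key v hcon.2)
  have h1 := congrFun hac (Fin.last n)
  have h2 := congrFun hac s
  simp only [Pi.add_apply, pt_self, pt_ne hne.symm, pt_ne hne, Pi.smul_apply, smul_eq_mul,
    zero_add, add_zero, mul_one] at h1 h2
  rw [← h1] at h2
  norm_num at h2

/-- (3) is necessary, first form -/
lemma nec_three_aux {u v : Fin (n + 1) → ℂ} (h : Determining n u v) (s : Fin (n + 1))
    (hs : s < Fin.last n) (h1 : u (Fin.last n) * u s ≠ 0) :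
    ‖u s * v (Fin.last n)‖ ≠ ‖v s * u (Fin.last n)‖ := by
  intro heq
  set l := Fin.last n with hl
  have hne : s ≠ l := hs.ne
  have hus : u s ≠ 0 := right_ne_zero_of_mul h1
  have hcus : conj (u s) ≠ 0 := by simpa using hus
  set r := u l / u s with hr
  have hru : r * u s = u l := div_mul_cancel₀ _ hus
  have hrv : (r * v s) * conj (r * v s) = v l * conj (v l) := by
    have h2 : ‖r * v s‖ = ‖v l‖ := by
      rw [hr, norm_mul, norm_div, div_mul_eq_mul_div, div_eq_iff (norm_ne_zero_iff.2 hus)]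
      rw [norm_mul, norm_mul] at heq
      linarith
    rw [Complex.mul_conj, Complex.mul_conj, Complex.normSq_eq_norm_sq,
      Complex.normSq_eq_norm_sq, h2]
  have key : ∀ w : Fin (n + 1) → ℂ, (r * w s) * conj (r * w s) = w l * conj (w l) → ∀ ω,
      mag ((pt s (2 * r) + pt l 1) * w) ω = mag ((pt s r + pt l 2) * w) ω := by
    intro w hw ω
    rw [mag2 _ _ hs.le, mag2 _ _ hs.le]
    have := four (b0 := 2 * r * w s) (b1 := 1 * w l) (b2 := 0) (b3 := 0) (c0 := r * w s)
      (c1 := 2 * w l) (c2 := 0) (c3 := 0) (circ_pow ω ((l : ℕ) - s)) (W := 1) (by simp)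
      (by simp only [map_mul, map_zero, map_ofNat, map_one] at hw ⊢; linear_combination 3 * hw)
      (by simp only [map_mul, map_zero, map_ofNat, map_one]; ring) (by simp) (by simp) (by simp)
    simpa using this
  obtain ⟨c, hc, hac⟩ := h (pt s (2 * r) + pt l 1) (pt s r + pt l 2)
    (by rw [← hl]; simp [pt_ne hne.symm]) (by rw [← hl]; simp [pt_ne hne.symm])
    (key u (by rw [hru])) (key v hrv)
  have h2 := congrFun hac l
  simp only [Pi.add_apply, pt_self, pt_ne hne.symm, Pi.smul_apply, smul_eq_mul,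
    zero_add, mul_one] at h2
  rw [← h2] at hc
  norm_num at hc

lemma Determining.symm {u v : Fin (n + 1) → ℂ} (h : Determining n u v) : Determining n v u :=
  fun a a' ha ha' h1 h2 => h a a' ha ha' h2 h1

lemma nec_three {u v : Fin (n + 1) → ℂ} (h : Determining n u v) (s : Fin (n + 1))
    (hs : s < Fin.last n) : ‖u s * v (Fin.last n)‖ ≠ ‖v s * u (Fin.last n)‖ := by
  rcases nec_one h s hs with h1 | h1
  · exact nec_three_aux h s hs h1
  · exact (nec_three_aux h.symm s hs h1).symm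

/-- the determinant condition for `j ≠ k`, main case -/
lemma nec_two_main {u v : Fin (n + 1) → ℂ} (h : Determining n u v) (s j k : Fin (n + 1))
    (hsj : s < j) (hj : j < Fin.last n) (hjk : (j : ℕ) + k = s + n) (hne : j ≠ k)
    (hu : u j ≠ 0) (hv : v s ≠ 0) (huv : u k ≠ 0 ∨ v k ≠ 0) :
    u j * conj (u s) * (v (Fin.last n) * conj (v k)) ≠
      v j * conj (v s) * (u (Fin.last n) * conj (u k)) := by
  intro hD
  set l := Fin.last n with hl
  have hval : (l : ℕ) = n := Fin.val_last n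
  have hjk : (@Fin.val (n+1) j) + (@Fin.val (n+1) k) = s + (@Fin.val (n+1) l) := by omega
  rw [Fin.lt_def] at hsj hj
  have hsk : s < k := by rw [Fin.lt_def]; omega
  have hkl : k ≠ l := by intro h; rw [h] at hjk; omega
  have hjl : j ≠ l := by intro h; rw [h] at hj; omega
  have hsl : s ≠ l := by intro h; rw [h] at hsj; omega
  have hjs : j ≠ s := by intro h; rw [h] at hsj; omega
  have hcu : conj (u j) ≠ 0 := by simpa using hu
  have hcv : conj (v s) ≠ 0 := by simpa using hv
  -- the solution of the equations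
  obtain ⟨y, hy1, hy2⟩ : ∃ y : ℂ, y * u k = conj (v l) / v s * u s ∧
      y * v k = conj (u l / u j * v j) := by
    rw [map_mul, map_div₀]
    have hD' := congrArg conj hD
    simp only [map_mul, Complex.conj_conj] at hD'
    rcases huv with hk | hk
    · refine ⟨conj (v l) / v s * u s / u k, div_mul_cancel₀ _ hk, ?_⟩
      field_simp
      linear_combination hD'
    · refine ⟨conj (u l) / conj (u j) * conj (v j) / v k, ?_, div_mul_cancel₀ _ hk⟩
      field_simp
      linear_combination -hD'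
  set b0 : ℂ := conj (v l) / v s with hb0
  set b1 : ℂ := u l / u j with hb1
  have e1 : b1 * u j = u l := div_mul_cancel₀ _ hu
  have e0 : b0 * v s = conj (v l) := div_mul_cancel₀ _ hv
  have key : ∀ w : Fin (n + 1) → ℂ,
      (y * w k) * conj (y * w k) + w l * conj (w l) =
        (b0 * w s) * conj (b0 * w s) + (b1 * w j) * conj (b1 * w j) →
      w l * conj (y * w k) = (b1 * w j) * conj (b0 * w s) → ∀ ω,
      mag ((pt s (2 * b0) + pt j (2 * b1) + pt k y + pt l 1) * w) ω =
        mag ((pt s b0 + pt j b1 + pt k (2 * y) + pt l 2) * w) ω := by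
    intro w hw1 hw2 ω
    rw [mag4 s j k l hjk (Fin.le_def.2 hsj.le) hsk.le, mag4 s j k l hjk (Fin.le_def.2 hsj.le) hsk.le]
    refine four (circ_pow _ _) (circ_pow _ _) ?_ ?_ ?_ ?_ ?_
    · simp only [map_mul, map_ofNat, map_one] at hw1 ⊢
      linear_combination (-3) * hw1
    · simp only [map_mul, map_ofNat, map_one] at hw2 ⊢
      linear_combination (-3) * hw2
    · simp only [map_mul, map_ofNat, map_one]
      ring
    · simp only [map_mul, map_ofNat, map_one]
      ring
    · simp only [map_mul, map_ofNat, map_one]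
      ring
  obtain ⟨c, hc, hac⟩ := h (pt s (2 * b0) + pt j (2 * b1) + pt k y + pt l 1)
    (pt s b0 + pt j b1 + pt k (2 * y) + pt l 2)
    (by rw [← hl]; simp [pt_ne hsl.symm, pt_ne hjl.symm, pt_ne hkl.symm])
    (by rw [← hl]; simp [pt_ne hsl.symm, pt_ne hjl.symm, pt_ne hkl.symm])
    (key u (by rw [hy1, e1]) (by rw [hy1, e1]))
    (key v (by rw [hy2, e0]; simp only [map_mul, Complex.conj_conj]; ring)
      (by rw [hy2, e0]; simp only [map_mul, Complex.conj_conj]; ring))
  have h2 := congrFun hac l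
  simp only [Pi.add_apply, pt_self, pt_ne hsl.symm, pt_ne hjl.symm, pt_ne hkl.symm,
    Pi.smul_apply, smul_eq_mul, zero_add, mul_one] at h2
  rw [← h2] at hc
  norm_num at hc

/-- the determinant condition, the case that one window is concentrated at `n` -/
lemma nec_two_conc {u v : Fin (n + 1) → ℂ} (h : Determining n u v) (s j k : Fin (n + 1))
    (hsj : s < j) (hj : j < Fin.last n) (hjk : (j : ℕ) + k = s + n) (hne : j ≠ k)
    (hus : u s = 0) (huj : u j = 0) (huk : u k = 0) : False := by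
  have hv : v (Fin.last n) ≠ 0 ∧ v s ≠ 0 := by
    rcases nec_one h s (hsj.trans hj) with h1 | h1
    · rw [hus, mul_zero] at h1; exact absurd rfl h1
    · exact ⟨left_ne_zero_of_mul h1, right_ne_zero_of_mul h1⟩
  have hvj : v j ≠ 0 := by
    rcases nec_one h j hj with h1 | h1
    · rw [huj, mul_zero] at h1; exact absurd rfl h1
    · exact right_ne_zero_of_mul h1
  have hkl' : k < Fin.last n := by
    rw [Fin.lt_def, Fin.val_last] at hj ⊢
    rw [Fin.lt_def] at hsj
    omega
  have hvk : v k ≠ 0 := by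
    rcases nec_one h k hkl' with h1 | h1
    · rw [huk, mul_zero] at h1; exact absurd rfl h1
    · exact right_ne_zero_of_mul h1
  obtain ⟨hvl, hvs⟩ := hv
  set l := Fin.last n with hl
  have hval : (l : ℕ) = n := Fin.val_last n
  have hjk : (@Fin.val (n+1) j) + (@Fin.val (n+1) k) = s + (@Fin.val (n+1) l) := by omega
  rw [Fin.lt_def] at hsj hj
  have hsk : s < k := by rw [Fin.lt_def]; omega
  have hkl : k ≠ l := hkl'.ne
  have hjl : j ≠ l := by intro h; rw [h] at hj; omega
  have hsl : s ≠ l := by intro h; rw [h] at hsj; omega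
  have hjs : j ≠ s := by intro h; rw [h] at hsj; omega
  have key : ∀ w : Fin (n + 1) → ℂ, (∃ t : ℂ, w s = t * v s ∧ w j = t * v j ∧ w k = t * v k ∧
      w l = t * v l) ∨ (w s = 0 ∧ w j = 0 ∧ w k = 0) → ∀ ω,
      mag ((pt s (1 / v s) + pt j (1 / v j) + pt k (2 / v k) + pt l (1 / v l)) * w) ω =
        mag ((pt s (1 / v s) + pt j (2 / v j) + pt k (1 / v k) + pt l (1 / v l)) * w) ω := by
    intro w hw ω
    rw [mag4 s j k l hjk (Fin.le_def.2 hsj.le) hsk.le, mag4 s j k l hjk (Fin.le_def.2 hsj.le) hsk.le]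
    rcases hw with ⟨t, h1, h2, h3, h4⟩ | ⟨h1, h2, h3⟩
    · have f0 : ∀ x y : ℂ, y ≠ 0 → x / y * (t * y) = x * t := by
        intro x y hy; field_simp
      rw [h1, h2, h3, h4, f0 _ _ hvs, f0 _ _ hvj, f0 _ _ hvk, f0 _ _ hvl, f0 _ _ hvj, f0 _ _ hvk]
      refine four (circ_pow _ _) (circ_pow _ _) ?_ ?_ ?_ ?_ ?_ <;>
      · simp only [map_mul, map_ofNat, map_one] <;> ring
    · simp [h1, h2, h3]
  obtain ⟨c, hc, hac⟩ := h (pt s (1 / v s) + pt j (1 / v j) + pt k (2 / v k) + pt l (1 / v l))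
    (pt s (1 / v s) + pt j (2 / v j) + pt k (1 / v k) + pt l (1 / v l))
    (by rw [← hl]; simp [pt_ne hsl.symm, pt_ne hjl.symm, pt_ne hkl.symm, hvl])
    (by rw [← hl]; simp [pt_ne hsl.symm, pt_ne hjl.symm, pt_ne hkl.symm, hvl])
    (key u (Or.inr ⟨hus, huj, huk⟩))
    (key v (Or.inl ⟨1, by simp⟩))
  have h2 := congrFun hac l
  have h3 := congrFun hac j
  simp only [Pi.add_apply, pt_self, pt_ne hsl.symm, pt_ne hjl.symm, pt_ne hkl.symm,
    pt_ne hjs, pt_ne hjl, pt_ne hne,
    Pi.smul_apply, smul_eq_mul, zero_add, add_zero] at h2 h3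
  have h4 : c = 1 := by
    have : (1 / v l) ≠ 0 := by simpa using hvl
    have h5 : (c - 1) * (1 / v l) = 0 := by rw [sub_mul, ← h2]; ring
    exact sub_eq_zero.1 ((mul_eq_zero.1 h5).resolve_right this)
  rw [h4] at h3
  field_simp at h3
  norm_num at h3

/-- the middle case `j = k`, with `u j = 0` -/
lemma nec_two_mid {u v : Fin (n + 1) → ℂ} (h : Determining n u v) (s j : Fin (n + 1))
    (hsj : s < j) (hj : j < Fin.last n) (hjk : (j : ℕ) + j = s + n) (huj : u j = 0) : False := by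
  have hv : v (Fin.last n) ≠ 0 ∧ v j ≠ 0 := by
    rcases nec_one h j hj with h1 | h1
    · rw [huj, mul_zero] at h1; exact absurd rfl h1
    · exact ⟨left_ne_zero_of_mul h1, right_ne_zero_of_mul h1⟩
  have h1s := nec_one h s (hsj.trans hj)
  obtain ⟨hvl, hvj⟩ := hv
  set l := Fin.last n with hl
  have hval : (l : ℕ) = n := Fin.val_last n
  have hjk : (@Fin.val (n+1) j) + (@Fin.val (n+1) j) = s + (@Fin.val (n+1) l) := by omega
  have hjl : j ≠ l := hj.ne
  have hsl : s ≠ l := (hsj.trans hj).ne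
  have hjs : j ≠ s := hsj.ne'
  by_cases hvs : v s = 0
  · have hu' : u l ≠ 0 ∧ u s ≠ 0 := by
      rcases h1s with h1 | h1
      · exact ⟨left_ne_zero_of_mul h1, right_ne_zero_of_mul h1⟩
      · rw [hvs, mul_zero] at h1; exact absurd rfl h1
    obtain ⟨hul, hus⟩ := hu'
    set p := u l / u s with hp
    set q := v l / v j with hq
    have e1 : p * u s = u l := div_mul_cancel₀ _ hus
    have e2 : q * v j = v l := div_mul_cancel₀ _ hvj
    obtain ⟨c, hc, hac⟩ := h (pt s (2 * p) + pt j (2 * q) + pt l 1) (pt s p + pt j q + pt l 2)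
      (by rw [← hl]; simp [pt_ne hsl.symm, pt_ne hjl.symm])
      (by rw [← hl]; simp [pt_ne hsl.symm, pt_ne hjl.symm])
      (by
        intro ω
        rw [mag3 s j l hjk hsj.le, mag3 s j l hjk hsj.le, huj, mul_assoc 2 p, e1]
        refine three (circ_pow _ _) ?_ ?_ ?_ <;>
        · simp only [map_mul, map_ofNat, map_one, mul_zero, map_zero] <;> ring)
      (by
        intro ω
        rw [mag3 s j l hjk hsj.le, mag3 s j l hjk hsj.le, hvs, mul_assoc 2 q, e2]
        refine three (circ_pow _ _) ?_ ?_ ?_ <;>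
        · simp only [map_mul, map_ofNat, map_one, mul_zero, map_zero] <;> ring)
    have h2 := congrFun hac l
    simp only [Pi.add_apply, pt_self, pt_ne hsl.symm, pt_ne hjl.symm,
      Pi.smul_apply, smul_eq_mul, zero_add, mul_one] at h2
    rw [← h2] at hc
    norm_num at hc
  · obtain ⟨c, hc, hac⟩ := h (pt s (1 / v s) + pt j (I / v j) + pt l (1 / v l))
      (pt s (1 / v s) + pt j (-I / v j) + pt l (1 / v l))
      (by rw [← hl]; simp [pt_ne hsl.symm, pt_ne hjl.symm, hvl])
      (by rw [← hl]; simp [pt_ne hsl.symm, pt_ne hjl.symm, hvl])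
      (by
        intro ω
        rw [mag3 s j l hjk hsj.le, mag3 s j l hjk hsj.le, huj]
        simp)
      (by
        intro ω
        rw [mag3 s j l hjk hsj.le, mag3 s j l hjk hsj.le]
        rw [div_mul_cancel₀ _ hvs, div_mul_cancel₀ _ hvj, div_mul_cancel₀ _ hvj,
          div_mul_cancel₀ _ hvl]
        refine three (circ_pow _ _) ?_ ?_ ?_ <;>
        · simp only [map_neg, map_one, conj_I] <;> ring)
    have h2 := congrFun hac l
    have h3 := congrFun hac j
    simp only [Pi.add_apply, pt_self, pt_ne hsl.symm, pt_ne hjl.symm,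
      pt_ne hjs, pt_ne hjl,
      Pi.smul_apply, smul_eq_mul, zero_add, add_zero] at h2 h3
    have h4 : c = 1 := by
      have : (1 / v l) ≠ 0 := by simpa using hvl
      have h5 : (c - 1) * (1 / v l) = 0 := by rw [sub_mul, ← h2]; ring
      exact sub_eq_zero.1 ((mul_eq_zero.1 h5).resolve_right this)
    rw [h4, one_mul, div_left_inj' hvj] at h3
    have h5 : (2 : ℂ) * I = 0 := by linear_combination -h3
    simp at h5

theorem necessary {u v : Fin (n + 1) → ℂ} (h : Determining n u v) : Cond n u v := by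
  refine ⟨nec_one h, ?_, nec_three h⟩
  intro s j k hsj hj hjk hD
  set l := Fin.last n with hl
  have hval : (l : ℕ) = n := Fin.val_last n
  have hsl : s < l := hsj.trans hj
  have hkl : k < l := by
    rw [Fin.lt_def] at hsj hj ⊢
    omega
  by_cases hne : j = k
  · subst hne
    -- `u j = 0` or `v j = 0`
    by_cases huj : u j = 0
    · exact nec_two_mid h s j hsj hj hjk huj
    · by_cases hvj : v j = 0
      · exact nec_two_mid h.symm s j hsj hj hjk hvj
      · apply nec_three h s hsl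
        have h1 := congrArg norm hD
        simp only [norm_mul, RCLike.norm_conj] at h1
        have h2 : ‖u j‖ * ‖v j‖ ≠ 0 :=
          mul_ne_zero (norm_ne_zero_iff.2 huj) (norm_ne_zero_iff.2 hvj)
        have h3 : (‖u j‖ * ‖v j‖) * (‖u s‖ * ‖v l‖) = (‖u j‖ * ‖v j‖) * (‖v s‖ * ‖u l‖) := by
          linear_combination h1
        rw [norm_mul, norm_mul]
        exact mul_left_cancel₀ h2 h3
  · have nz : ∀ t, t < l → u t ≠ 0 ∨ v t ≠ 0 := by
      intro t ht
      rcases nec_one h t ht with h1 | h1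
      · exact Or.inl (right_ne_zero_of_mul h1)
      · exact Or.inr (right_ne_zero_of_mul h1)
    by_cases c1 : u j ≠ 0 ∧ v s ≠ 0
    · exact nec_two_main h s j k hsj hj hjk hne c1.1 c1.2 (nz k hkl) hD
    by_cases c2 : v j ≠ 0 ∧ u s ≠ 0
    · exact nec_two_main h.symm s j k hsj hj hjk hne c2.1 c2.2 (nz k hkl).symm hD.symm
    have hnj := nz j hj
    have hns := nz s hsl
    have t3 := nec_three h s hsl
    have t1 := nec_one h s hsl
    by_cases huj : u j = 0
    · have hvj : v j ≠ 0 := by tauto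
      have hus : u s = 0 := by tauto
      have hvs : v s ≠ 0 := by tauto
      rw [huj, zero_mul, zero_mul] at hD
      have hul : u l ≠ 0 := by
        intro h0
        apply t3
        rw [hus, h0]
        simp
      have huk : u k = 0 := by
        have hcvs : conj (v s) ≠ 0 := by simpa using hvs
        have h1 := (mul_eq_zero.1 hD.symm).resolve_left (mul_ne_zero hvj hcvs)
        simpa [hul] using h1
      exact nec_two_conc h s j k hsj hj hjk hne hus huj huk
    · have hvs : v s = 0 := by tauto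
      have hus : u s ≠ 0 := by tauto
      have hvj : v j = 0 := by tauto
      rw [hvj, zero_mul, zero_mul] at hD
      have hvl : v l ≠ 0 := by
        intro h0
        apply t3
        rw [hvs, h0]
        simp
      have hvk : v k = 0 := by
        have hcus : conj (u s) ≠ 0 := by simpa using hus
        have h1 := (mul_eq_zero.1 hD).resolve_left (mul_ne_zero huj hcus)
        simpa [hvl] using h1
      exact nec_two_conc h.symm s j k hsj hj hjk hne hvs hvj hvk

end Pool.Agent.J4H15.Win
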