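import Mathlib
import Pool.Agent.J4H15.Win.Defs

/-! Window pairs: the condition is sufficient. -/

set_option autoImplicit false

namespace Pool.Agent.J4H15.Win

open Complex ComplexConjugate Polynomial

/-- the pairs of indices with difference `m` -/
def lev (n m : ℕ) : Finset (Fin (n + 1) × Fin (n + 1)) :=
  Finset.univ.filter fun p => (p.1 : ℕ) = p.2 + m

lemma mem_lev {n m : ℕ} {p : Fin (n + 1) × Fin (n + 1)} :
    p ∈ lev n m ↔ (p.1 : ℕ) = p.2 + m := by simp [lev]

noncomputable def BB {n : ℕ} (b : Fin (n + 1) → ℂ) : ℂ[X] :=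
  ∑ p : Fin (n + 1) × Fin (n + 1), C (b p.1 * conj (b p.2)) * X ^ ((p.1 : ℕ) + (n - p.2))

lemma coeff_BB {n : ℕ} (b : Fin (n + 1) → ℂ) (m : ℕ) :
    (BB b).coeff (n + m) = ∑ p ∈ lev n m, b p.1 * conj (b p.2) := by
  unfold BB lev
  rw [finsetSum_coeff, Finset.sum_filter]
  refine Finset.sum_congr rfl fun p _ => ?_
  rw [coeff_C_mul_X_pow]
  have h1 := p.1.2
  have h2 := p.2.2
  by_cases h : (p.1 : ℕ) = p.2 + m
  · rw [if_pos (by omega), if_pos h]
  · rw [if_neg (by omega), if_neg h]

lemma eval_BB {n : ℕ} (b : Fin (n + 1) → ℂ) (z : ℂ) (hz : z * conj z = 1) :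
    (BB b).eval z = z ^ n * ((∑ k, b k * z ^ (k : ℕ)) * conj (∑ k, b k * z ^ (k : ℕ))) := by
  unfold BB
  rw [eval_finsetSum, map_sum, Finset.sum_mul_sum, Finset.mul_sum, Fintype.sum_prod_type]
  refine Finset.sum_congr rfl fun i _ => ?_
  rw [Finset.mul_sum]
  refine Finset.sum_congr rfl fun j _ => ?_
  have hj := j.2
  have : z ^ n * conj z ^ (j : ℕ) = z ^ (n - (j : ℕ)) := by
    have h1 : z ^ n = z ^ (n - (j : ℕ)) * z ^ (j : ℕ) := by
      rw [← pow_add]; congr 1; omega
    rw [h1, mul_assoc, ← mul_pow, hz, one_pow, mul_one]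
  simp only [eval_mul, eval_C, eval_pow, eval_X, map_mul, map_pow, pow_add]
  rw [← this]
  ring

lemma circ (ω : ℝ) : exp (ω * I) * conj (exp (ω * I)) = 1 := by
  rw [Complex.mul_conj, Complex.normSq_eq_norm_sq, Complex.norm_exp_ofReal_mul_I]
  simp

/-- equal spectral magnitudes: equal autocorrelations -/
lemma autocorr {n : ℕ} (b b' : Fin (n + 1) → ℂ) (h : ∀ ω, mag b ω = mag b' ω) (m : ℕ) :
    ∑ p ∈ lev n m, b p.1 * conj (b p.2) = ∑ p ∈ lev n m, b' p.1 * conj (b' p.2) := by
  rw [← coeff_BB, ← coeff_BB]
  congr 1
  refine Polynomial.eq_of_infinite_eval_eq _ _ ?_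
  refine Set.Infinite.mono (s := Set.range fun ω : ℝ => exp (ω * I)) ?_ ?_
  · rintro _ ⟨ω, rfl⟩
    have h1 := h ω
    unfold mag at h1
    change (BB b).eval _ = (BB b').eval _
    rw [eval_BB _ _ (circ ω), eval_BB _ _ (circ ω), Complex.mul_conj, Complex.mul_conj,
      Complex.normSq_eq_norm_sq, Complex.normSq_eq_norm_sq, h1]
  · have h1 : (Set.Ioo (0 : ℝ) 1).Infinite := Set.Ioo_infinite one_pos
    refine Set.Infinite.mono (s := (fun ω : ℝ => exp (ω * I)) '' Set.Ioo (0 : ℝ) 1)
      (Set.image_subset_range _ _) ?_
    refine h1.image ?_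
    intro x hx y hy hxy
    have hpi := Real.pi_gt_three
    have h2 : Complex.arg (exp (x * I)) = Complex.arg (exp (y * I)) := by
      simp only at hxy
      rw [hxy]
    rwa [Complex.arg_exp_mul_I, Complex.arg_exp_mul_I,
      (toIocMod_eq_self _).2 ⟨by linarith [hx.1], by linarith [hx.2]⟩,
      (toIocMod_eq_self _).2 ⟨by linarith [hy.1], by linarith [hy.2]⟩] at h2

lemma autocorr_sub {n : ℕ} (a a' w : Fin (n + 1) → ℂ) (h : ∀ ω, mag (a * w) ω = mag (a' * w) ω)
    (m : ℕ) : ∑ p ∈ lev n m, (a p.1 * conj (a p.2) - a' p.1 * conj (a' p.2)) *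
      (w p.1 * conj (w p.2)) = 0 := by
  have h1 := autocorr _ _ h m
  rw [← sub_eq_zero, ← Finset.sum_sub_distrib] at h1
  rw [← h1]
  refine Finset.sum_congr rfl fun p _ => ?_
  simp only [Pi.mul_apply, map_mul]
  ring

theorem sufficient {n : ℕ} (hn : 1 ≤ n) (u v : Fin (n + 1) → ℂ) (hc : Cond n u v) :
    Determining n u v := by
  intro a a' ha ha' hu hv
  have Eu := autocorr_sub a a' u hu
  have Ev := autocorr_sub a a' v hv
  set A : Fin (n + 1) → Fin (n + 1) → ℂ := fun i j => a i * conj (a j) - a' i * conj (a' j) with hA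
  have hA0 : ∀ i j, a i * conj (a j) - a' i * conj (a' j) = A i j := fun _ _ => rfl
  simp only [hA0] at Eu Ev
  -- the first index at which `a` or `a'` is not zero
  have hex : ∃ s : ℕ, ∃ h : s < n + 1, a ⟨s, h⟩ ≠ 0 ∨ a' ⟨s, h⟩ ≠ 0 :=
    ⟨n, Nat.lt_succ_self n, Or.inl ha⟩
  classical
  obtain ⟨hs, hs0⟩ := Nat.find_spec hex
  set s₀ := Nat.find hex with hs₀
  set s : Fin (n + 1) := ⟨s₀, hs⟩ with hsdef
  have hbelow : ∀ i : Fin (n + 1), i < s → a i = 0 ∧ a' i = 0 := by
    intro i hi
    have := Nat.find_min hex (m := (i : ℕ)) hi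
    push Not at this
    exact this i.2
  have hAb : ∀ i j : Fin (n + 1), j < s → A i j = 0 := by
    intro i j hj
    obtain ⟨h1, h2⟩ := hbelow j hj
    simp [hA, h1, h2]
  set l := Fin.last n with hl
  have hval : (l : ℕ) = n := Fin.val_last n
  have hsle : s ≤ l := Fin.le_last s
  -- from equality with the last index to the conclusion
  have fin : (∀ k, A l k = 0) → ∃ c : ℂ, ‖c‖ = 1 ∧ a' = c • a := by
    intro h
    have hnn : a l * conj (a l) = a' l * conj (a' l) := sub_eq_zero.1 (h l)
    have hnorm : ‖a l‖ = ‖a' l‖ := by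
      rw [Complex.mul_conj, Complex.mul_conj, Complex.normSq_eq_norm_sq,
        Complex.normSq_eq_norm_sq] at hnn
      have : ‖a l‖ ^ 2 = ‖a' l‖ ^ 2 := by exact_mod_cast hnn
      exact (pow_left_inj₀ (norm_nonneg _) (norm_nonneg _) two_ne_zero).1 this
    refine ⟨a' l / a l, ?_, ?_⟩
    · rw [norm_div, hnorm, div_self]
      exact norm_ne_zero_iff.2 ha'
    · funext k
      have hk : a l * conj (a k) = a' l * conj (a' k) := sub_eq_zero.1 (h k)
      have hk' := congrArg conj hk
      simp only [map_mul, Complex.conj_conj] at hk'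
      have hc1 : conj (a' l) ≠ 0 := by simpa using ha'
      have hc2 : conj (a l) ≠ 0 := by simpa using ha
      rw [Pi.smul_apply, smul_eq_mul, div_mul_eq_mul_div, eq_div_iff ha]
      have : conj (a' l) * (a' k * a l) = conj (a' l) * (a' l * a k) := by
        linear_combination (-(a l)) * hk' + (a k) * hnn
      exact mul_left_cancel₀ hc1 this
  rcases hsle.lt_or_eq with hsl | hsl
  swap
  · -- only the last coefficient is not zero
    refine fin fun k => ?_
    rcases (Fin.le_last k).lt_or_eq with hk | hk
    · exact hAb _ _ (by rw [hsl]; exact hk)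
    · have h0 : (⟨0, by omega⟩ : Fin (n + 1)) < l := by
        rw [Fin.lt_def, hval]; exact hn
      have key : ∀ w : Fin (n + 1) → ℂ,
          ∑ p ∈ lev n 0, A p.1 p.2 * (w p.1 * conj (w p.2)) = 0 → w l ≠ 0 → A l l = 0 := by
        intro w hw hwl
        rw [Finset.sum_eq_single (l, l)] at hw
        · have : w l * conj (w l) ≠ 0 := mul_ne_zero hwl (by simpa using hwl)
          exact (mul_eq_zero.1 hw).resolve_right this
        · rintro ⟨i, j⟩ hp hne
          rw [mem_lev] at hp
          have hij : i = j := Fin.ext (by simpa using hp)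
          subst hij
          have hil : i < l := lt_of_le_of_ne (Fin.le_last i) (fun h => hne (by rw [h]))
          have := hAb i i (by rw [hsl]; exact hil)
          simp [this]
        · intro h
          exact absurd (mem_lev.2 (by simp)) h
      have hk' : k = l := hk
      rw [hk']
      rcases hc.one _ h0 with h | h
      · exact key u (Eu 0) (left_ne_zero_of_mul h)
      · exact key v (Ev 0) (left_ne_zero_of_mul h)
  -- main case
  have hslN : (s : ℕ) < n := by
    have := Fin.lt_def.1 hsl
    omega
  -- the outermost pair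
  have hout : A l s = 0 := by
    have key : ∀ w : Fin (n + 1) → ℂ,
        ∑ p ∈ lev n (n - s), A p.1 p.2 * (w p.1 * conj (w p.2)) = 0 → w l * w s ≠ 0 →
          A l s = 0 := by
      intro w hw hwl
      rw [Finset.sum_eq_single (l, s)] at hw
      · have : w l * conj (w s) ≠ 0 :=
          mul_ne_zero (left_ne_zero_of_mul hwl) (by simpa using right_ne_zero_of_mul hwl)
        exact (mul_eq_zero.1 hw).resolve_right this
      · rintro ⟨i, j⟩ hp hne
        rw [mem_lev] at hp
        simp only at hp
        have hi := i.2
        have hjs : j < s := by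
          rcases lt_trichotomy j s with h | h | h
          · exact h
          · exfalso
            apply hne
            subst h
            have : i = l := Fin.ext (by rw [hval]; omega)
            rw [this]
          · exfalso
            rw [Fin.lt_def] at h
            omega
        simp [hAb i j hjs]
      · intro h
        exact absurd (mem_lev.2 (by simp only [hval]; omega)) h
    rcases hc.one s hsl with h | h
    · exact key u (Eu _) h
    · exact key v (Ev _) h
  have hX : a l * conj (a s) = a' l * conj (a' s) := sub_eq_zero.1 hout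
  have hX0 : a l * conj (a s) ≠ 0 := by
    rcases hs0 with h | h
    · exact mul_ne_zero ha (by simpa using h)
    · rw [hX]
      exact mul_ne_zero ha' (by simpa using h)
  -- interior pairs
  have hint : ∀ j k, A j s = 0 → A l k = 0 → A j k = 0 := by
    intro j k h1 h2
    have e1 : a j * conj (a s) = a' j * conj (a' s) := sub_eq_zero.1 h1
    have e2 : a l * conj (a k) = a' l * conj (a' k) := sub_eq_zero.1 h2
    have : a l * conj (a s) * A j k = 0 := by
      simp only [hA]
      linear_combination (a l * conj (a k)) * e1 + (a' j * conj (a' s)) * e2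
        - (a' j * conj (a' k)) * hX
    exact (mul_eq_zero.1 this).resolve_left hX0
  have main : ∀ d : ℕ, ∀ j k : Fin (n + 1), s ≤ k → k ≤ j → n + k = s + j + d → A j k = 0 := by
    intro d
    induction d using Nat.strong_induction_on with
    | _ d ih =>
      intro j k hsk hkj hd
      have hj := j.2
      rw [Fin.le_def] at hsk hkj
      rcases Nat.eq_zero_or_pos d with hd0 | hd0
      · have h1 : k = s := Fin.ext (by omega)
        have h2 : j = l := Fin.ext (by rw [hval]; omega)
        rw [h1, h2]
        exact hout
      -- the level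
      obtain ⟨m, hm⟩ : ∃ m, (j : ℕ) = k + m := ⟨j - k, by omega⟩
      have hmlt : (s : ℕ) + m < n := by omega
      set p₁ : Fin (n + 1) := ⟨s + m, by omega⟩ with hp₁
      set q₂ : Fin (n + 1) := ⟨n - m, by omega⟩ with hq₂
      -- interior pairs of this level
      have inner : ∀ i i' : Fin (n + 1), s < i' → (i : ℕ) = i' + m → i < l → A i i' = 0 := by
        intro i i' h1 h2 h3
        rw [Fin.lt_def] at h1 h3
        rw [hval] at h3
        refine hint i i' ?_ ?_
        · refine ih (n - i) (by omega) i s le_rfl ?_ (by omega)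
          rw [Fin.le_def]; omega
        · refine ih (i' - s) (by omega) l i' ?_ ?_ (by rw [hval]; omega)
          · rw [Fin.le_def]; omega
          · exact Fin.le_last _
      have two_terms : ∀ w : Fin (n + 1) → ℂ,
          ∑ p ∈ lev n m, A p.1 p.2 * (w p.1 * conj (w p.2)) = 0 →
            A p₁ s * (w p₁ * conj (w s)) + A l q₂ * (w l * conj (w q₂)) = 0 := by
        intro w hw
        rw [Finset.sum_eq_add (p₁, s) (l, q₂)] at hw
        · exact hw
        · intro h
          have h1 := congrArg (fun p => ((p.1 : Fin (n + 1)) : ℕ)) h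
          simp only [hp₁, hval] at h1
          omega
        · rintro ⟨i, i'⟩ hp ⟨h1, h2⟩
          rw [mem_lev] at hp
          simp only at hp
          rcases lt_trichotomy i' s with h | h | h
          · simp [hAb i i' h]
          · exfalso
            apply h1
            subst h
            have : i = p₁ := Fin.ext (by simp only [hp₁]; omega)
            rw [this]
          · rcases (Fin.le_last i).lt_or_eq with h3 | h3
            · simp [inner i i' h hp h3]
            · exfalso
              apply h2
              have h4 : i = l := h3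
              have h5 : i' = q₂ := Fin.ext (by
                have := congrArg Fin.val h4
                rw [hval] at this
                simp only [hq₂]
                omega)
              rw [h4, h5]
        · intro h
          exact absurd (mem_lev.2 (by simp only [hp₁])) h
        · intro h
          exact absurd (mem_lev.2 (by simp only [hq₂, hval]; omega)) h
      have Fu := two_terms u (Eu m)
      have Fv := two_terms v (Ev m)
      have hdet : (u p₁ * conj (u s)) * (v l * conj (v q₂)) -
          (v p₁ * conj (v s)) * (u l * conj (u q₂)) ≠ 0 := by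
        rcases Nat.eq_zero_or_pos m with hm0 | hm0
        · have e1 : p₁ = s := Fin.ext (by simp only [hp₁]; omega)
          have e2 : q₂ = l := Fin.ext (by simp only [hq₂, hval]; omega)
          rw [e1, e2]
          intro h
          apply hc.three s hsl
          have h1 : ((normSq (u s) * normSq (v l) : ℝ) : ℂ) =
              ((normSq (v s) * normSq (u l) : ℝ) : ℂ) := by
            push_cast
            rw [← Complex.mul_conj, ← Complex.mul_conj, ← Complex.mul_conj, ← Complex.mul_conj]
            exact sub_eq_zero.1 h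
          have h2 : normSq (u s) * normSq (v l) = normSq (v s) * normSq (u l) := by
            exact_mod_cast h1
          rw [← map_mul, ← map_mul, Complex.normSq_eq_norm_sq, Complex.normSq_eq_norm_sq] at h2
          exact (pow_left_inj₀ (norm_nonneg _) (norm_nonneg _) two_ne_zero).1 h2
        · refine sub_ne_zero.2 (hc.two s p₁ q₂ ?_ ?_ ?_)
          · rw [Fin.lt_def]; simp only [hp₁]; omega
          · rw [Fin.lt_def, Fin.val_last]; simp only [hp₁]; omega
          · simp only [hp₁, hq₂]; omega
      have R1 : A p₁ s = 0 := by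
        refine (mul_eq_zero.1 (?_ : A p₁ s * ((u p₁ * conj (u s)) * (v l * conj (v q₂)) -
          (v p₁ * conj (v s)) * (u l * conj (u q₂))) = 0)).resolve_right hdet
        linear_combination (v l * conj (v q₂)) * Fu - (u l * conj (u q₂)) * Fv
      have R2 : A l q₂ = 0 := by
        refine (mul_eq_zero.1 (?_ : A l q₂ * ((u p₁ * conj (u s)) * (v l * conj (v q₂)) -
          (v p₁ * conj (v s)) * (u l * conj (u q₂))) = 0)).resolve_right hdet
        linear_combination (u p₁ * conj (u s)) * Fv - (v p₁ * conj (v s)) * Fu
      rcases hsk.lt_or_eq with h1 | h1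
      · rcases (Fin.le_last j).lt_or_eq with h3 | h3
        · exact inner j k h1 hm h3
        · have h4 : j = l := h3
          have h5 : k = q₂ := Fin.ext (by
            have := congrArg Fin.val h4
            rw [hval] at this
            simp only [hq₂]
            omega)
          rw [h4, h5]
          exact R2
      · have h5 : k = s := Fin.ext h1.symm
        have h6 : j = p₁ := Fin.ext (by simp only [hp₁]; rw [h5] at hm; exact hm)
        rw [h5, h6]
        exact R1
  refine fin fun k => ?_
  rcases lt_or_ge k s with h | h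
  · exact hAb _ _ h
  · refine main (k - s) l k h (Fin.le_last k) ?_
    rw [Fin.le_def] at h
    rw [hval]
    omega

end Pool.Agent.J4H15.Win
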